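import Mathlib
import Pool.Agent.Lib.SM3.E23

/-!
# Three-colour Poisson stable matching on the line, Q1

The first question of the problem in dimension one, in the format of the frozen statement
(`d = 1`): if `p 0 < p 1 = p 2` then almost surely every point is matched.
-/

set_option autoImplicit false

namespace Pool.Agent.Results.MP_95f258_pr.DimOneBelow

/-- Let `p 0 < p 1 = p 2` be positive with sum `1`, and let `S 0`, `S 1`, `S 2` be independent
Poisson processes of intensities `p 0`, `p 1`, `p 2` on the line `EuclideanSpace ℝ (Fin 1)`.  Almost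
surely there is a stable matching of differently coloured points, and every stable matching matches
all points. -/
theorem result :
  ∀ (p : Fin 3 → ℝ), (∀ i, 0 < p i) → p 0 + p 1 + p 2 = 1 →
    p 0 < p 1 → p 1 = p 2 →
  ∀ (Ω : Type) [MeasurableSpace Ω] (P : MeasureTheory.Measure Ω),
    MeasureTheory.IsProbabilityMeasure P →
  ∀ (S : Fin 3 → Ω → Set (EuclideanSpace ℝ (Fin 1))),
    (∀ (i : Fin 3) (ω : Ω) (A : Set (EuclideanSpace ℝ (Fin 1))),
        Bornology.IsBounded A → (S i ω ∩ A).Finite) →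
    (∀ (i : Fin 3) (A : Set (EuclideanSpace ℝ (Fin 1))), MeasurableSet A →
        Bornology.IsBounded A → Measurable (fun ω => (S i ω ∩ A).ncard)) →
    (∀ (i : Fin 3) (A : Set (EuclideanSpace ℝ (Fin 1))), MeasurableSet A →
        Bornology.IsBounded A → ∀ k : ℕ,
        P {ω | (S i ω ∩ A).ncard = k} =
          ENNReal.ofReal (Real.exp (-(p i * (MeasureTheory.volume A).toReal)) *
            (p i * (MeasureTheory.volume A).toReal) ^ k / (k.factorial : ℝ))) →
    (∀ (n : ℕ) (c : Fin n → Fin 3) (A : Fin n → Set (EuclideanSpace ℝ (Fin 1))),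
        (∀ j, MeasurableSet (A j) ∧ Bornology.IsBounded (A j)) →
        (∀ j k, j ≠ k → c j = c k → Disjoint (A j) (A k)) →
        ProbabilityTheory.iIndepFun (fun j ω => (S (c j) ω ∩ A j).ncard) P) →
    ∀ᵐ ω ∂P,
      (∃ M : EuclideanSpace ℝ (Fin 1) → EuclideanSpace ℝ (Fin 1) → Prop,
        (∀ x y, M x y → M y x) ∧
        (∀ x y, M x y → x ≠ y ∧ ∃ i j : Fin 3, i ≠ j ∧ x ∈ S i ω ∧ y ∈ S j ω) ∧
        (∀ x y z, M x y → M x z → y = z) ∧
        (∀ x y, x ≠ y → (∃ i j : Fin 3, i ≠ j ∧ x ∈ S i ω ∧ y ∈ S j ω) →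
          ¬ ((∀ z, M x z → dist x y < dist x z) ∧ (∀ z, M y z → dist x y < dist y z)))) ∧
      (∀ M : EuclideanSpace ℝ (Fin 1) → EuclideanSpace ℝ (Fin 1) → Prop,
        ((∀ x y, M x y → M y x) ∧
        (∀ x y, M x y → x ≠ y ∧ ∃ i j : Fin 3, i ≠ j ∧ x ∈ S i ω ∧ y ∈ S j ω) ∧
        (∀ x y z, M x y → M x z → y = z) ∧
        (∀ x y, x ≠ y → (∃ i j : Fin 3, i ≠ j ∧ x ∈ S i ω ∧ y ∈ S j ω) →
          ¬ ((∀ z, M x z → dist x y < dist x z) ∧ (∀ z, M y z → dist x y < dist y z)))) →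
        ∀ (i : Fin 3) (x : EuclideanSpace ℝ (Fin 1)), x ∈ S i ω → ∃ y, M x y) :=
  Pool.SM3.dim_one_Q1

end Pool.Agent.Results.MP_95f258_pr.DimOneBelow
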