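import Mathlib
import Pool.Agent.Lib.SM3X.H10

/-!
# Three-colour Poisson stable matching: the intensity of the unmatched points in high dimension

The expected number of unmatched points of colour 1 per unit volume is
`(max (p 0 - p 1) 0) ^ 2 / p 0 + O (1 / d)`, uniformly in the intensities, in the format of the
frozen statement of the first question.
-/

set_option autoImplicit false

namespace Pool.Agent.Results.MP_95f258_pr.HighDimensionLimit

/-- There is an absolute constant `C` with the following property.  Let `d ≥ 1`, let `p 0`,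
`p 1 = p 2` be positive with sum `1`, and let `S 0`, `S 1`, `S 2` be independent Poisson processes of
intensities `p 0`, `p 1`, `p 2` in `EuclideanSpace ℝ (Fin d)`.  Almost surely there is a stable
matching of differently coloured points; and if `M ω` is a stable matching for almost every `ω`, then
for every bounded Borel set `A` the expected number of points of colour `0` in `A` which `M ω` leaves
unmatched is `(max (p 0 - p 1) 0) ^ 2 / p 0` times the volume of `A`, up to an error of at most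
`C / d` times the volume of `A`. -/
theorem result : ∃ C : ℝ, 0 < C ∧
  ∀ (d : ℕ), 1 ≤ d →
  ∀ (p : Fin 3 → ℝ), (∀ i, 0 < p i) → p 0 + p 1 + p 2 = 1 → p 1 = p 2 →
  ∀ (Ω : Type) [MeasurableSpace Ω] (P : MeasureTheory.Measure Ω),
    MeasureTheory.IsProbabilityMeasure P →
  ∀ (S : Fin 3 → Ω → Set (EuclideanSpace ℝ (Fin d))),
    (∀ (i : Fin 3) (ω : Ω) (A : Set (EuclideanSpace ℝ (Fin d))),
        Bornology.IsBounded A → (S i ω ∩ A).Finite) →
    (∀ (i : Fin 3) (A : Set (EuclideanSpace ℝ (Fin d))), MeasurableSet A →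
        Bornology.IsBounded A → Measurable (fun ω => (S i ω ∩ A).ncard)) →
    (∀ (i : Fin 3) (A : Set (EuclideanSpace ℝ (Fin d))), MeasurableSet A →
        Bornology.IsBounded A → ∀ k : ℕ,
        P {ω | (S i ω ∩ A).ncard = k} =
          ENNReal.ofReal (Real.exp (-(p i * (MeasureTheory.volume A).toReal)) *
            (p i * (MeasureTheory.volume A).toReal) ^ k / (k.factorial : ℝ))) →
    (∀ (n : ℕ) (c : Fin n → Fin 3) (A : Fin n → Set (EuclideanSpace ℝ (Fin d))),
        (∀ j, MeasurableSet (A j) ∧ Bornology.IsBounded (A j)) →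
        (∀ j k, j ≠ k → c j = c k → Disjoint (A j) (A k)) →
        ProbabilityTheory.iIndepFun (fun j ω => (S (c j) ω ∩ A j).ncard) P) →
    (∀ᵐ ω ∂P, ∃ M : EuclideanSpace ℝ (Fin d) → EuclideanSpace ℝ (Fin d) → Prop,
        (∀ x y, M x y → M y x) ∧
        (∀ x y, M x y → x ≠ y ∧ ∃ i j : Fin 3, i ≠ j ∧ x ∈ S i ω ∧ y ∈ S j ω) ∧
        (∀ x y z, M x y → M x z → y = z) ∧
        (∀ x y, x ≠ y → (∃ i j : Fin 3, i ≠ j ∧ x ∈ S i ω ∧ y ∈ S j ω) →
          ¬ ((∀ z, M x z → dist x y < dist x z) ∧ (∀ z, M y z → dist x y < dist y z)))) ∧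
    (∀ M : Ω → EuclideanSpace ℝ (Fin d) → EuclideanSpace ℝ (Fin d) → Prop,
        (∀ᵐ ω ∂P, (∀ x y, M ω x y → M ω y x) ∧
        (∀ x y, M ω x y → x ≠ y ∧ ∃ i j : Fin 3, i ≠ j ∧ x ∈ S i ω ∧ y ∈ S j ω) ∧
        (∀ x y z, M ω x y → M ω x z → y = z) ∧
        (∀ x y, x ≠ y → (∃ i j : Fin 3, i ≠ j ∧ x ∈ S i ω ∧ y ∈ S j ω) →
          ¬ ((∀ z, M ω x z → dist x y < dist x z) ∧ (∀ z, M ω y z → dist x y < dist y z)))) →
      ∀ A : Set (EuclideanSpace ℝ (Fin d)), MeasurableSet A → Bornology.IsBounded A →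
        ENNReal.ofReal ((max (p 0 - p 1) 0) ^ 2 / p 0 - C / d) * MeasureTheory.volume A ≤
          ∫⁻ ω, ({x | x ∈ S 0 ω ∧ x ∈ A ∧ ∀ y, ¬ M ω x y}.ncard : ENNReal) ∂P ∧
        ∫⁻ ω, ({x | x ∈ S 0 ω ∧ x ∈ A ∧ ∀ y, ¬ M ω x y}.ncard : ENNReal) ∂P ≤
          ENNReal.ofReal ((max (p 0 - p 1) 0) ^ 2 / p 0 + C / d) * MeasureTheory.volume A) :=
  Pool.SM3X.high_dim

end Pool.Agent.Results.MP_95f258_pr.HighDimensionLimit
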